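import Pool.Agent.Y202.U.Stm

/-!
The one-point biases are bounded as long as the law is not singular to the limit (task S_L1 of
project Y202/U), helper500.
-/

set_option autoImplicit false
set_option linter.unusedSectionVars false

namespace Pool.Agent.Y500.U

open Finset Pool.Agent.W788.NV Pool.Agent.Y202.U
open Pool.Agent.W371.NV.One (ρ sum_ρ ρ_nonneg ρ_eq)

section
variable {V : Type} [Fintype V] [DecidableEq V] {G : SimpleGraph V} {q : ℕ} {θ : ℝ} {Δ : ℕ}

theorem rho_sym (hS : SA G q θ Δ) (v w : V) :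
    (dg G v : ℝ) * ρ G q θ v w = dg G w * ρ G q θ w v := by
  classical
  have h0 : ∀ v, (dg G v : ℝ) ≠ 0 := by
    intro v
    have : (1 : ℝ) ≤ dg G v := by exact_mod_cast hS.d1 v
    linarith
  have h1 := h0 v
  have h2 := h0 w
  rw [ρ_eq, ρ_eq, G.adj_comm w v]
  split_ifs
  · field_simp
  · simp

/-- the reversibility -/
theorem rev (hS : SA G q θ Δ) (b e : V → ℝ) :
    ∑ v, (dg G v : ℝ) * b v * (-e v + ∑ w, ρ G q θ v w * e w) =
      ∑ v, (dg G v : ℝ) * (-b v + ∑ w, ρ G q θ v w * b w) * e v := by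
  have h1 : ∀ b e : V → ℝ, ∑ v, (dg G v : ℝ) * b v * (-e v + ∑ w, ρ G q θ v w * e w) =
      -(∑ v, (dg G v : ℝ) * b v * e v) +
        ∑ v, ∑ w, ((dg G v : ℝ) * ρ G q θ v w) * (b v * e w) := by
    intro b e
    rw [← sum_neg_distrib, ← sum_add_distrib]
    refine sum_congr rfl fun v _ => ?_
    rw [mul_add, mul_sum]
    congr 1
    · ring
    · exact sum_congr rfl fun w _ => by ring
  have h2 : ∑ v, (dg G v : ℝ) * (-b v + ∑ w, ρ G q θ v w * b w) * e v =
      ∑ v, (dg G v : ℝ) * e v * (-b v + ∑ w, ρ G q θ v w * b w) :=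
    sum_congr rfl fun v _ => by ring
  rw [h2, h1, h1]
  congr 1
  · congr 1
    exact sum_congr rfl fun v _ => by ring
  · rw [sum_comm]
    refine sum_congr rfl fun v _ => sum_congr rfl fun w _ => ?_
    rw [rho_sym hS w v]
    ring

/-- the energy inequality -/
theorem energy (hS : SA G q θ Δ) (b : V → ℝ) :
    ∑ v, (dg G v : ℝ) * (2 * b v * (-b v + ∑ w, ρ G q θ v w * b w)) ≤
      -(2 * θ) * ∑ v, (dg G v : ℝ) * b v ^ 2 := by
  have h1 : ∑ v, (dg G v : ℝ) * (2 * b v * (-b v + ∑ w, ρ G q θ v w * b w)) =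
      -(2 * ∑ v, (dg G v : ℝ) * b v ^ 2) +
        ∑ v, ∑ w, ((dg G v : ℝ) * ρ G q θ v w) * (2 * b v * b w) := by
    rw [mul_sum, ← sum_neg_distrib, ← sum_add_distrib]
    refine sum_congr rfl fun v _ => ?_
    have e1 : (dg G v : ℝ) * (2 * b v * (-b v + ∑ w, ρ G q θ v w * b w)) =
      -(2 * ((dg G v : ℝ) * b v ^ 2)) + ((dg G v : ℝ) * (2 * b v)) * ∑ w, ρ G q θ v w * b w := by
      ring
    rw [e1, mul_sum]
    congr 1
    exact sum_congr rfl fun w _ => by ring
  have h2 : ∑ v, ∑ w, ((dg G v : ℝ) * ρ G q θ v w) * (2 * b v * b w) ≤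
      ∑ v, ∑ w, (((dg G v : ℝ) * ρ G q θ v w) * b v ^ 2 +
        ((dg G w : ℝ) * ρ G q θ w v) * b w ^ 2) := by
    refine sum_le_sum fun v _ => sum_le_sum fun w _ => ?_
    rw [← rho_sym hS v w]
    have h3 : 0 ≤ (dg G v : ℝ) * ρ G q θ v w :=
      mul_nonneg (Nat.cast_nonneg _) (ρ_nonneg G q θ hS.t1 v w)
    nlinarith [mul_nonneg h3 (sq_nonneg (b v - b w))]
  have h3 : ∑ v, ∑ w, ((dg G v : ℝ) * ρ G q θ v w) * b v ^ 2 =
      (1 - θ) * ∑ v, (dg G v : ℝ) * b v ^ 2 := by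
    rw [mul_sum]
    refine sum_congr rfl fun v _ => ?_
    rw [← sum_mul, ← mul_sum, sum_ρ G q θ v (hS.d1 v)]
    ring
  have h4 : ∑ v, ∑ w, ((dg G w : ℝ) * ρ G q θ w v) * b w ^ 2 =
      (1 - θ) * ∑ v, (dg G v : ℝ) * b v ^ 2 := by
    rw [sum_comm]
    exact h3
  simp only [sum_add_distrib] at h2
  rw [h3, h4] at h2
  rw [h1]
  linarith

theorem gf_et (hG : S_GE) (hS : SA G q θ Δ) (c : Fin q) (v : V) :
    gf (mrate G q θ) (act (V := V) (q := q)) (et c v) =
      fun y => ∑ k : Option V, (k.elim (-1) (fun w => ρ G q θ v w)) *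
        ((k.elim (et c v) (fun w => et c w) : (V → Fin q) → ℝ) y) := by
  funext y
  rw [(hG V G q θ Δ hS y).1 c v, Fintype.sum_option]
  simp only [Option.elim]
  rw [neg_one_mul]
  rfl

/-- the evolution of the one-point biases -/
theorem bi_deriv (hG : S_GE) (hS : SA G q θ Δ) (x0 : V → Fin q) (t : ℝ) (c : Fin q) (v : V) :
    HasDerivAt (fun t => bi G q θ x0 t c v)
      (-bi G q θ x0 t c v + ∑ w, mrate G q θ (Sum.inr (v, w)) * bi G q θ x0 t c w) t := by
  have h1 := p_mk.deriv (V → Fin q) ((V × Fin q) ⊕ (V × V)) (mrate G q θ) act (et c v) x0 t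
  refine h1.congr_deriv ?_
  rw [gf_et hG hS c v, p_mk.lin (V → Fin q) _ (Option V), Fintype.sum_option]
  simp only [Option.elim]
  rw [neg_one_mul]
  rfl

/-- the energy of the biases -/
noncomputable def EE (G : SimpleGraph V) (q : ℕ) (θ : ℝ) (x0 : V → Fin q) (t : ℝ) (c : Fin q) : ℝ :=
  ∑ v, (dg G v : ℝ) * (bi G q θ x0 t c v) ^ 2

theorem EE_nonneg (x0 : V → Fin q) (t : ℝ) (c : Fin q) : 0 ≤ EE G q θ x0 t c :=
  sum_nonneg fun v _ => by positivity

theorem EE_deriv (hG : S_GE) (hS : SA G q θ Δ) (x0 : V → Fin q) (t : ℝ) (c : Fin q) :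
    HasDerivAt (fun t => EE G q θ x0 t c) (∑ v, (dg G v : ℝ) * (2 * bi G q θ x0 t c v *
      (-bi G q θ x0 t c v + ∑ w, ρ G q θ v w * bi G q θ x0 t c w))) t := by
  unfold EE
  refine HasDerivAt.fun_sum fun v _ => ?_
  have h1 := ((bi_deriv hG hS x0 t c v).pow 2).const_mul (dg G v : ℝ)
  refine h1.congr_deriv ?_
  unfold ρ
  ring

/-- the energy of the biases decays at rate `2 θ` -/
theorem EE_dec (hG : S_GE) (hS : SA G q θ Δ) (x0 : V → Fin q) (t u : ℝ) (hu : 0 ≤ u)
    (c : Fin q) : EE G q θ x0 (t + u) c ≤ Real.exp (-2 * θ * u) * EE G q θ x0 t c := by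
  have hE : ∀ s : ℝ, HasDerivAt (fun s : ℝ => Real.exp (2 * θ * s))
      (Real.exp (2 * θ * s) * (2 * θ)) s := by
    intro s
    have h1 : HasDerivAt (fun s : ℝ => 2 * θ * s) (2 * θ) s := by
      simpa using (hasDerivAt_id s).const_mul (2 * θ)
    exact h1.exp
  have hder := fun s : ℝ => (hE s).mul (EE_deriv hG hS x0 s c)
  have hanti : Antitone (fun s : ℝ => Real.exp (2 * θ * s) * EE G q θ x0 s c) := by
    refine antitone_of_hasDerivAt_nonpos hder fun s => ?_
    have h1 := energy hS (fun v => bi G q θ x0 s c v)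
    have h2 : 0 < Real.exp (2 * θ * s) := Real.exp_pos _
    have h3 : EE G q θ x0 s c = ∑ v, (dg G v : ℝ) * (bi G q θ x0 s c v) ^ 2 := rfl
    rw [← h3] at h1
    have h4 := mul_le_mul_of_nonneg_left h1 h2.le
    show Real.exp (2 * θ * s) * (2 * θ) * EE G q θ x0 s c + Real.exp (2 * θ * s) * _ ≤ 0
    linarith
  have h1 := hanti (by linarith : t ≤ t + u)
  simp only at h1
  have h2 : Real.exp (2 * θ * (t + u)) = Real.exp (2 * θ * t) * Real.exp (2 * θ * u) := by
    rw [← Real.exp_add]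
    ring_nf
  have h3 : Real.exp (-2 * θ * u) * Real.exp (2 * θ * u) = 1 := by
    rw [← Real.exp_add]
    simp
  rw [h2, mul_assoc] at h1
  have h4 := le_of_mul_le_mul_left h1 (Real.exp_pos _)
  calc EE G q θ x0 (t + u) c = Real.exp (-2 * θ * u) *
      (Real.exp (2 * θ * u) * EE G q θ x0 (t + u) c) := by rw [← mul_assoc, h3, one_mul]
    _ ≤ _ := mul_le_mul_of_nonneg_left h4 (Real.exp_pos _).le

theorem bi_dec (hG : S_GE) (hS : SA G q θ Δ) (x0 : V → Fin q) (t u : ℝ) (_ht : 0 ≤ t)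
    (hu : 0 ≤ u) (c : Fin q) : ∑ v, (dg G v : ℝ) * (bi G q θ x0 (t + u) c v) ^ 2 ≤
      Real.exp (-2 * θ * u) * ∑ v, (dg G v : ℝ) * (bi G q θ x0 t c v) ^ 2 :=
  EE_dec hG hS x0 t u hu c

theorem bi_zero (x : V → Fin q) (c : Fin q) (v : V) : bi G q θ x 0 c v = et c v x := by
  unfold bi pt
  rw [p_mk.zero]

/-- duality -/
theorem bracket (hG : S_GE) (hS : SA G q θ Δ) (x0 x : V → Fin q) (t u : ℝ) (c : Fin q) :
    ∑ v, (dg G v : ℝ) * bi G q θ x0 t c v * bi G q θ x u c v =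
      ∑ v, (dg G v : ℝ) * bi G q θ x0 (t + u) c v * et c v x := by
  set f : ℝ → ℝ := fun τ => ∑ v, (dg G v : ℝ) * bi G q θ x0 (t + u - τ) c v * bi G q θ x τ c v
    with hf
  have hder : ∀ τ, HasDerivAt f 0 τ := by
    intro τ
    have h1 : ∀ v, HasDerivAt (fun τ => (dg G v : ℝ) * bi G q θ x0 (t + u - τ) c v *
        bi G q θ x τ c v)
        (-((dg G v : ℝ) * (-bi G q θ x0 (t + u - τ) c v +
          ∑ w, ρ G q θ v w * bi G q θ x0 (t + u - τ) c w) * bi G q θ x τ c v) +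
        (dg G v : ℝ) * bi G q θ x0 (t + u - τ) c v *
          (-bi G q θ x τ c v + ∑ w, ρ G q θ v w * bi G q θ x τ c w)) τ := by
      intro v
      have h2 : HasDerivAt (fun τ : ℝ => t + u - τ) (-1) τ := by
        simpa using (hasDerivAt_id τ).const_sub (t + u)
      have h3 := (bi_deriv hG hS x0 (t + u - τ) c v).comp τ h2
      have h4 := (h3.const_mul (dg G v : ℝ)).mul (bi_deriv hG hS x τ c v)
      refine h4.congr_deriv ?_
      unfold ρ
      simp only [Function.comp_apply]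
      ring
    have h5 := HasDerivAt.fun_sum (u := (univ : Finset V)) fun v _ => h1 v
    refine h5.congr_deriv ?_
    rw [sum_add_distrib, sum_neg_distrib, rev hS]
    ring
  have hconst : f u = f 0 := is_const_of_deriv_eq_zero
    (fun τ => (hder τ).differentiableAt) (fun τ => (hder τ).deriv) u 0
  rw [hf] at hconst
  simp only [add_sub_cancel_right, sub_zero] at hconst
  rw [hconst]
  exact sum_congr rfl fun v _ => by rw [bi_zero]

/-- the linear statistic -/
noncomputable def ell (G : SimpleGraph V) (q : ℕ) (θ : ℝ) (x0 : V → Fin q) (c : Fin q) (s : ℝ)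
    (x : V → Fin q) : ℝ := ∑ v, (dg G v : ℝ) * bi G q θ x0 s c v * et c v x

theorem pt_ell (hG : S_GE) (hS : SA G q θ Δ) (x0 : V → Fin q) (c : Fin q) (t u : ℝ) :
    pt G q θ u (ell G q θ x0 c t) = ell G q θ x0 c (t + u) := by
  funext x
  have h1 : pt G q θ u (ell G q θ x0 c t) x =
      ∑ v, (dg G v : ℝ) * bi G q θ x0 t c v * bi G q θ x u c v := by
    unfold pt ell
    rw [p_mk.lin (V → Fin q) _ V]
    rfl
  rw [h1, bracket hG hS x0 x t u c]
  rfl

theorem ell_act (x0 : V → Fin q) (c : Fin q) (s : ℝ) (e : (V × Fin q) ⊕ (V × V))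
    (x : V → Fin q) : (ell G q θ x0 c s (act e x) - ell G q θ x0 c s x) ^ 2 ≤
      ((dg G (site e) : ℝ) * bi G q θ x0 s c (site e)) ^ 2 := by
  obtain ⟨d, hd⟩ := Pool.Agent.W298.NV.Lin.act_eq e x
  rw [hd]
  set v := site e with hv
  unfold ell
  rw [← sum_sub_distrib, sum_eq_single v]
  · have h1 : |et c v (Function.update x v d) - et c v x| ≤ 1 := by
      unfold et
      rw [Function.update_self]
      split_ifs <;> ring_nf <;> norm_num
    have h2 : (et c v (Function.update x v d) - et c v x) ^ 2 ≤ 1 := by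
      rw [← sq_abs]
      exact pow_le_one₀ (abs_nonneg _) h1
    calc _ = ((dg G v : ℝ) * bi G q θ x0 s c v) ^ 2 *
        (et c v (Function.update x v d) - et c v x) ^ 2 := by ring
      _ ≤ ((dg G v : ℝ) * bi G q θ x0 s c v) ^ 2 * 1 :=
        mul_le_mul_of_nonneg_left h2 (sq_nonneg _)
      _ = _ := mul_one _
  · intro w _ hw
    unfold et
    rw [Function.update_of_ne hw]
    ring
  · intro h
    exact absurd (mem_univ v) h

theorem gam_ell (hS : SA G q θ Δ) (x0 : V → Fin q) (c : Fin q) (s : ℝ) (x : V → Fin q) :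
    gam (mrate G q θ) (act (V := V) (q := q)) (ell G q θ x0 c s) x ≤ Δ * EE G q θ x0 s c := by
  have hq := hS.q2
  have h2 := p_tot V G q θ (by omega) hS.t0.le hS.t1 hS.d1
  unfold gam
  calc ∑ e, mrate G q θ e * (ell G q θ x0 c s (act e x) - ell G q θ x0 c s x) ^ 2
      ≤ ∑ e : (V × Fin q) ⊕ (V × V), mrate G q θ e *
        (fun v => ((dg G v : ℝ) * bi G q θ x0 s c v) ^ 2) (site e) :=
        sum_le_sum fun e _ => mul_le_mul_of_nonneg_left (ell_act x0 c s e x) (h2.1 e)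
    _ = ∑ v, ((dg G v : ℝ) * bi G q θ x0 s c v) ^ 2 :=
        h2.2 (fun v => ((dg G v : ℝ) * bi G q θ x0 s c v) ^ 2)
    _ ≤ Δ * EE G q θ x0 s c := by
        rw [EE, mul_sum]
        refine sum_le_sum fun v _ => ?_
        have h3 : (dg G v : ℝ) ≤ Δ := by exact_mod_cast hS.dD v
        have h4 : (0 : ℝ) ≤ dg G v := Nat.cast_nonneg _
        have h5 : 0 ≤ (dg G v : ℝ) * (bi G q θ x0 s c v) ^ 2 := by positivity
        calc ((dg G v : ℝ) * bi G q θ x0 s c v) ^ 2 =
            (dg G v : ℝ) * ((dg G v : ℝ) * (bi G q θ x0 s c v) ^ 2) := by ring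
          _ ≤ _ := mul_le_mul_of_nonneg_right h3 h5

/-- the second moment of the linear statistic -/
theorem second (hG : S_GE) (hS : SA G q θ Δ) (x0 x : V → Fin q) (c : Fin q) (t T : ℝ)
    (hT : 0 ≤ T) : pt G q θ T (fun y => (ell G q θ x0 c t y) ^ 2) x ≤
      (ell G q θ x0 c (t + T) x) ^ 2 + Δ * EE G q θ x0 t c / (2 * θ) := by
  have hq := hS.q2
  have hθ := hS.t0
  have htot := p_tot V G q θ (by omega) hS.t0.le hS.t1 hS.d1
  set E := EE G q θ x0 t c with hE
  have hE0 : 0 ≤ E := EE_nonneg x0 t c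
  set U : ℝ → ℝ := fun τ => sg (mrate G q θ) (act (V := V) (q := q)) τ
    (fun y => (sg (mrate G q θ) (act (V := V) (q := q)) (T - τ) (ell G q θ x0 c t) y) ^ 2) x with hU
  have hder : ∀ τ, HasDerivAt U (sg (mrate G q θ) (act (V := V) (q := q)) τ
      (gam (mrate G q θ) (act (V := V) (q := q))
        (sg (mrate G q θ) (act (V := V) (q := q)) (T - τ) (ell G q θ x0 c t))) x) τ :=
    fun τ => p_var _ _ _ _ _ _ _ _
  have hbd : ∀ τ, 0 ≤ τ → τ ≤ T → sg (mrate G q θ) (act (V := V) (q := q)) τ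
      (gam (mrate G q θ) (act (V := V) (q := q))
        (sg (mrate G q θ) (act (V := V) (q := q)) (T - τ) (ell G q θ x0 c t))) x ≤
      Δ * E * Real.exp (-2 * θ * (T - τ)) := by
    intro τ h0 hτ
    have h1 : sg (mrate G q θ) (act (V := V) (q := q)) (T - τ) (ell G q θ x0 c t) =
        ell G q θ x0 c (t + (T - τ)) := pt_ell hG hS x0 c t (T - τ)
    rw [h1]
    have h2 : ∀ y, gam (mrate G q θ) (act (V := V) (q := q)) (ell G q θ x0 c (t + (T - τ))) y ≤
        Δ * E * Real.exp (-2 * θ * (T - τ)) := by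
      intro y
      refine (gam_ell hS x0 c _ y).trans ?_
      have h3 := EE_dec hG hS x0 t (T - τ) (by linarith) c
      have h4 := mul_le_mul_of_nonneg_left h3 (Nat.cast_nonneg Δ : (0 : ℝ) ≤ Δ)
      refine h4.trans (le_of_eq ?_)
      ring
    have h5 := p_mk.mono (V → Fin q) ((V × Fin q) ⊕ (V × V)) (mrate G q θ) act
      (gam (mrate G q θ) (act (V := V) (q := q)) (ell G q θ x0 c (t + (T - τ))))
      (fun _ => Δ * E * Real.exp (-2 * θ * (T - τ))) x τ htot.1 h0 h2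
    rwa [p_mk.cst] at h5
  set W : ℝ → ℝ := fun τ => Δ * E / (2 * θ) * Real.exp (-2 * θ * (T - τ)) with hW
  have hWder : ∀ τ, HasDerivAt W (Δ * E * Real.exp (-2 * θ * (T - τ))) τ := by
    intro τ
    have h1 : HasDerivAt (fun τ : ℝ => -2 * θ * (T - τ)) (2 * θ) τ := by
      have h2 : HasDerivAt (fun τ : ℝ => T - τ) (-1) τ := by
        simpa using (hasDerivAt_id τ).const_sub T
      refine (h2.const_mul (-2 * θ)).congr_deriv ?_
      ring
    refine (h1.exp.const_mul (Δ * E / (2 * θ))).congr_deriv ?_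
    field_simp
  have hanti : AntitoneOn (fun τ => U τ - W τ) (Set.Icc 0 T) := by
    refine antitoneOn_of_deriv_nonpos (convex_Icc 0 T)
      (fun τ _ => ((hder τ).sub (hWder τ)).continuousAt.continuousWithinAt)
      (fun τ _ => ((hder τ).sub (hWder τ)).differentiableAt.differentiableWithinAt) fun τ hτ => ?_
    rw [interior_Icc] at hτ
    have h1 := ((hder τ).sub (hWder τ)).deriv
    have h2 : deriv (fun τ => U τ - W τ) τ = _ := h1
    rw [h2]
    have h3 := hbd τ hτ.1.le hτ.2.le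
    linarith
  have h1 := hanti ⟨le_rfl, hT⟩ ⟨hT, le_rfl⟩ hT
  simp only at h1
  have hUT : U T = pt G q θ T (fun y => (ell G q θ x0 c t y) ^ 2) x := by
    rw [hU]
    simp only [sub_self]
    rw [p_mk.zero]
    rfl
  have hU0 : U 0 = (ell G q θ x0 c (t + T) x) ^ 2 := by
    rw [hU]
    simp only [sub_zero]
    rw [p_mk.zero]
    have h2 : sg (mrate G q θ) (act (V := V) (q := q)) T (ell G q θ x0 c t) =
        ell G q θ x0 c (t + T) := pt_ell hG hS x0 c t T
    rw [h2]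
  have hWT : W T = Δ * E / (2 * θ) := by
    rw [hW]
    simp
  have hW0 : 0 ≤ W 0 := by
    rw [hW]
    positivity
  rw [hUT, hU0, hWT] at h1
  linarith

/-- crude bound of the linear statistic -/
theorem ell_sq_le (hS : SA G q θ Δ) (x0 x : V → Fin q) (c : Fin q) (s : ℝ) :
    (ell G q θ x0 c s x) ^ 2 ≤ (Fintype.card V * Δ) * EE G q θ x0 s c := by
  have hq2 : (2 : ℝ) ≤ q := by exact_mod_cast hS.q2
  have he : ∀ v : V, (et c v x) ^ 2 ≤ 1 := by
    intro v
    have h1 : 0 ≤ 1 / (q : ℝ) := by positivity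
    have h2 : 1 / (q : ℝ) ≤ 1 := by
      rw [div_le_one (by linarith)]
      linarith
    unfold et
    split_ifs <;> nlinarith
  have hcs := sum_mul_sq_le_sq_mul_sq univ (fun v => Real.sqrt (dg G v) * et c v x)
    (fun v => Real.sqrt (dg G v) * bi G q θ x0 s c v)
  have e1 : ∑ v, Real.sqrt (dg G v) * et c v x * (Real.sqrt (dg G v) * bi G q θ x0 s c v) =
      ell G q θ x0 c s x := by
    unfold ell
    refine sum_congr rfl fun v _ => ?_
    have := Real.mul_self_sqrt (Nat.cast_nonneg (dg G v) : (0 : ℝ) ≤ dg G v)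
    calc _ = (Real.sqrt (dg G v) * Real.sqrt (dg G v)) * (bi G q θ x0 s c v * et c v x) := by ring
      _ = _ := by rw [this]; ring
  have e2 : ∑ v, (Real.sqrt (dg G v) * bi G q θ x0 s c v) ^ 2 = EE G q θ x0 s c := by
    unfold EE
    refine sum_congr rfl fun v _ => ?_
    rw [mul_pow, Real.sq_sqrt (Nat.cast_nonneg _)]
  have e3 : ∑ v, (Real.sqrt (dg G v) * et c v x) ^ 2 ≤ Fintype.card V * Δ := by
    calc ∑ v, (Real.sqrt (dg G v) * et c v x) ^ 2 ≤ ∑ _v : V, (Δ : ℝ) := by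
          refine sum_le_sum fun v _ => ?_
          rw [mul_pow, Real.sq_sqrt (Nat.cast_nonneg _)]
          have h3 : (dg G v : ℝ) ≤ Δ := by exact_mod_cast hS.dD v
          have h4 : (0 : ℝ) ≤ dg G v := Nat.cast_nonneg _
          nlinarith [he v, sq_nonneg (et c v x)]
      _ = _ := by
          rw [sum_const, card_univ, nsmul_eq_mul]
  rw [e1, e2] at hcs
  exact hcs.trans (mul_le_mul_of_nonneg_right e3 (EE_nonneg x0 s c))

/-- the mean under the stationary law -/
theorem mean_et (hS : SA G q θ Δ) (μ : (V → Fin q) → ℝ) (hμ : IsStat G q θ μ) (c : Fin q)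
    (v : V) : mean μ (et c v) = 0 := by
  have h1 := ((p_one V G q θ hS.q2 hS.t0 hS.t1 hS.d1 (fun _ => c) c 0 le_rfl).2) μ hμ v
  have h2 : mean μ (et c v) = mean μ (fun x => if x v = c then 1 else 0) - 1 / q := by
    unfold mean et
    simp only [mul_sub, sum_sub_distrib]
    rw [← sum_mul, hμ.2.1, one_mul]
  rw [h2, h1, sub_self]

theorem mean_ell (hS : SA G q θ Δ) (x0 : V → Fin q) (μ : (V → Fin q) → ℝ)
    (hμ : IsStat G q θ μ) (c : Fin q) (t : ℝ) : mean μ (ell G q θ x0 c t) = 0 := by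
  have h1 : mean μ (ell G q θ x0 c t) =
      ∑ v, (dg G v : ℝ) * bi G q θ x0 t c v * mean μ (et c v) := by
    unfold mean ell
    simp only [mul_sum]
    rw [sum_comm]
    exact sum_congr rfl fun v _ => sum_congr rfl fun x _ => by ring
  rw [h1]
  refine sum_eq_zero fun v _ => ?_
  rw [mean_et hS μ hμ c v, mul_zero]

/-- the variance under the stationary law -/
theorem var_stat (hG : S_GE) (hS : SA G q θ Δ) (x0 : V → Fin q) (μ : (V → Fin q) → ℝ)
    (hμ : IsStat G q θ μ) (c : Fin q) (t : ℝ) :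
    mean μ (fun y => (ell G q θ x0 c t y) ^ 2) ≤ Δ * EE G q θ x0 t c / (2 * θ) := by
  have hq := hS.q2
  have hθ := hS.t0
  have hE0 : 0 ≤ EE G q θ x0 t c := EE_nonneg x0 t c
  have hlaw := (p_law V G q θ (by omega) hS.t0 hS.t1 hS.d1).2.2 μ hμ
  have hbd : ∀ T : ℝ, 0 ≤ T → mean μ (fun y => (ell G q θ x0 c t y) ^ 2) ≤
      Δ * EE G q θ x0 t c / (2 * θ) +
        (Fintype.card V * Δ) * EE G q θ x0 t c * Real.exp (-2 * θ * T) := by
    intro T hT
    rw [← hlaw T]
    have h1 : ∀ x, pt G q θ T (fun y => (ell G q θ x0 c t y) ^ 2) x ≤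
        Δ * EE G q θ x0 t c / (2 * θ) +
        (Fintype.card V * Δ) * EE G q θ x0 t c * Real.exp (-2 * θ * T) := by
      intro x
      refine (second hG hS x0 x c t T hT).trans ?_
      have h2 := ell_sq_le hS x0 x c (t + T)
      have h3 := EE_dec hG hS x0 t T hT c
      have h4 : (0 : ℝ) ≤ Fintype.card V * Δ := by positivity
      have h5 := mul_le_mul_of_nonneg_left h3 h4
      linarith
    unfold mean
    calc ∑ x, μ x * pt G q θ T (fun y => (ell G q θ x0 c t y) ^ 2) x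
        ≤ ∑ x, μ x * (Δ * EE G q θ x0 t c / (2 * θ) +
        (Fintype.card V * Δ) * EE G q θ x0 t c * Real.exp (-2 * θ * T)) :=
          sum_le_sum fun x _ => mul_le_mul_of_nonneg_left (h1 x) (hμ.1 x)
      _ = _ := by rw [← sum_mul, hμ.2.1, one_mul]
  have hlim : Filter.Tendsto (fun T : ℝ => Δ * EE G q θ x0 t c / (2 * θ) +
      (Fintype.card V * Δ) * EE G q θ x0 t c * Real.exp (-2 * θ * T)) Filter.atTop
      (nhds (Δ * EE G q θ x0 t c / (2 * θ) + (Fintype.card V * Δ) * EE G q θ x0 t c * 0)) := by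
    refine Filter.Tendsto.const_add _ (Filter.Tendsto.const_mul _ ?_)
    refine Real.tendsto_exp_atBot.comp ?_
    have h1 : Filter.Tendsto (fun T : ℝ => (2 * θ) * T) Filter.atTop Filter.atTop :=
      Filter.tendsto_id.const_mul_atTop (by linarith)
    have h2 := Filter.tendsto_neg_atTop_atBot.comp h1
    refine h2.congr fun T => ?_
    simp only [Function.comp_apply]
    ring
  have h1 := ge_of_tendsto hlim (Filter.eventually_atTop.2 ⟨0, fun T hT => hbd T hT⟩)
  simpa using h1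

theorem one_colour (hG : S_GE) (hS : SA G q θ Δ) (x0 : V → Fin q) (μ : (V → Fin q) → ℝ)
    (hμ : IsStat G q θ μ) (c : Fin q) (t : ℝ) (ht : 0 ≤ t) :
    (1 - tv (law G q θ x0 t) μ) * ∑ v, (bi G q θ x0 t c v) ^ 2 ≤ 2 * Δ / θ := by
  have hq := hS.q2
  have hθ := hS.t0
  have hlaw := p_law V G q θ (by omega) hS.t0 hS.t1 hS.d1
  set E := EE G q θ x0 t c with hE
  have hE0 : 0 ≤ E := EE_nonneg x0 t c
  have hC0 : 0 ≤ 2 * (Δ : ℝ) / θ := by positivity
  have hsum : ∑ v, (bi G q θ x0 t c v) ^ 2 ≤ E := by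
    rw [hE, EE]
    refine sum_le_sum fun v _ => ?_
    have h1 : (1 : ℝ) ≤ dg G v := by exact_mod_cast hS.d1 v
    nlinarith [sq_nonneg (bi G q θ x0 t c v)]
  have hs0 : 0 ≤ ∑ v, (bi G q θ x0 t c v) ^ 2 := sum_nonneg fun v _ => sq_nonneg _
  have hm1 : mean (law G q θ x0 t) (ell G q θ x0 c t) = E := by
    rw [hlaw.2.1 x0 t]
    have h1 : pt G q θ t (ell G q θ x0 c t) x0 =
        ∑ v, (dg G v : ℝ) * bi G q θ x0 t c v * bi G q θ x0 t c v := by
      unfold pt ell
      rw [p_mk.lin (V → Fin q) _ V]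
      rfl
    rw [h1, hE, EE]
    exact sum_congr rfl fun v _ => by ring
  have hm2 := mean_ell hS x0 μ hμ c t
  have hv1 : vr (law G q θ x0 t) (ell G q θ x0 c t) ≤ Δ * E / (2 * θ) := by
    unfold vr
    rw [hlaw.2.1 x0 t, hlaw.2.1 x0 t]
    have h1 := second hG hS x0 x0 c t t ht
    rw [pt_ell hG hS x0 c t t]
    linarith
  have hv2 : vr μ (ell G q θ x0 c t) ≤ Δ * E / (2 * θ) := by
    unfold vr
    rw [hm2]
    have h1 := var_stat hG hS x0 μ hμ c t
    simpa using h1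
  have hchb := p_chb (V → Fin q) (law G q θ x0 t) μ (ell G q θ x0 c t) (hlaw.1 x0 t ht)
    ⟨hμ.1, hμ.2.1⟩
  rw [hm1, hm2, sub_zero] at hchb
  by_cases htv : 0 ≤ 1 - tv (law G q θ x0 t) μ
  · rcases hE0.eq_or_lt with h0 | h0
    · have h1 : ∑ v, (bi G q θ x0 t c v) ^ 2 = 0 := le_antisymm (by linarith) hs0
      rw [h1, mul_zero]
      exact hC0
    · have h1 : (1 - tv (law G q θ x0 t) μ) * E ^ 2 ≤ 2 * Δ / θ * E := by
        refine hchb.trans ?_
        calc 2 * (vr (law G q θ x0 t) (ell G q θ x0 c t) + vr μ (ell G q θ x0 c t))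
            ≤ 2 * (Δ * E / (2 * θ) + Δ * E / (2 * θ)) := by linarith
          _ = 2 * Δ / θ * E := by
              field_simp
              ring
      have h2 : (1 - tv (law G q θ x0 t) μ) * E ≤ 2 * Δ / θ := by
        refine le_of_mul_le_mul_right ?_ h0
        calc (1 - tv (law G q θ x0 t) μ) * E * E = (1 - tv (law G q θ x0 t) μ) * E ^ 2 := by ring
          _ ≤ _ := h1
      exact (mul_le_mul_of_nonneg_left hsum htv).trans h2
  · rw [not_le] at htv
    exact (mul_nonpos_of_nonpos_of_nonneg htv.le hs0).trans hC0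

end

/-- L1 -/
theorem l1 (hG : S_GE) : S_L1 := by
  intro q θ Δ hq hθ0 hθ1
  refine ⟨q * (2 * Δ / θ), by positivity, ?_⟩
  intro V _ _ G x0 μ hS hμ t ht
  unfold BB
  rw [mul_sum]
  calc ∑ c, (1 - tv (law G q θ x0 t) μ) * ∑ v, (bi G q θ x0 t c v) ^ 2
      ≤ ∑ _c : Fin q, 2 * (Δ : ℝ) / θ :=
        sum_le_sum fun c _ => one_colour hG hS x0 μ hμ c t ht
    _ = q * (2 * Δ / θ) := by
        rw [sum_const, card_univ, Fintype.card_fin, nsmul_eq_mul]

end Pool.Agent.Y500.U
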